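import Pool.Agent.P.MP_909498_an.Classify

/-!
Weighted composition maps which preserve a shift invariant subspace: basic facts and limits.
-/

open scoped InnerProductSpace ComplexConjugate
open Filter Topology

namespace Pool.Agent.P.MP_909498_an.Wt

/-- The shifts. -/
noncomputable def sh : ℤ → L2 ℤ →ₗᵢ[ℂ] L2 ℤ := exists_shifts.choose

theorem sh_apply (t : ℤ) (x : L2 ℤ) (i : ℤ) : sh t x i = x (i - t) :=
  exists_shifts.choose_spec.2.1 t x i

theorem sh_sh (a b : ℤ) (x : L2 ℤ) : sh a (sh b x) = sh (a + b) x :=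
  exists_shifts.choose_spec.2.2 a b x

theorem sh_zero (x : L2 ℤ) : sh 0 x = x := lp.ext (funext fun i => by rw [sh_apply, sub_zero])

theorem sh_eb (t k : ℤ) : sh t (eb k) = eb (k + t) := by
  rw [sh, (exists_shifts.choose_spec.1 t).2, one_smul]

/-- Invariance under all shifts. -/
def SI (L : Submodule ℂ (L2 ℤ)) : Prop := ∀ t, ∀ x ∈ L, sh t x ∈ L

theorem SI.orth {L : Submodule ℂ (L2 ℤ)} (h : SI L) : SI Lᗮ := fun t y hy =>
  (Submodule.mem_orthogonal _ _).2 fun x hx => by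
    have e : x = sh t (sh (-t) x) := by rw [sh_sh, add_neg_cancel, sh_zero]
    rw [e, (sh t).inner_map_map]
    exact (Submodule.mem_orthogonal _ _).1 hy _ (h _ _ hx)

section

variable (L : Submodule ℂ (L2 ℤ)) [L.HasOrthogonalProjection]

/-- The projections of the basis vectors. -/
noncomputable def pk (k : ℤ) : L2 ℤ := L.starProjection (eb k)

/-- The kernel of the projection. -/
noncomputable def pp (n : ℤ) : ℂ := pk L 0 n

theorem pk_mem (k : ℤ) : pk L k ∈ L := L.starProjection_apply_mem _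

theorem inner_pk (k : ℤ) (x : L2 ℤ) : ⟪pk L k, x⟫_ℂ = L.starProjection x k := by
  rw [pk, L.inner_starProjection_left_eq_right, inner_eb]

variable {L}

theorem inner_pk_mem (k : ℤ) {x : L2 ℤ} (hx : x ∈ L) : ⟪pk L k, x⟫_ℂ = x k := by
  rw [inner_pk, Submodule.starProjection_eq_self_iff.2 hx]

theorem SI.proj (h : SI L) (t : ℤ) (x : L2 ℤ) :
    L.starProjection (sh t x) = sh t (L.starProjection x) :=
  Submodule.eq_starProjection_of_mem_orthogonal (h t _ (L.starProjection_apply_mem x)) (by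
    rw [← map_sub]
    exact h.orth t _ (L.sub_starProjection_mem_orthogonal x))

theorem SI.pk_apply (h : SI L) (k i : ℤ) : pk L k i = pp L (i - k) := by
  have e : eb k = sh k (eb 0) := by rw [sh_eb, zero_add]
  rw [pk, e, h.proj, sh_apply]
  rfl

theorem SI.pp_neg (h : SI L) (n : ℤ) : pp L (-n) = conj (pp L n) := by
  have e := qq_conj L n 0
  change conj (pk L 0 n) = pk L n 0 at e
  rw [h.pk_apply n, zero_sub] at e
  exact e.symm

theorem SI.norm_pp_neg (h : SI L) (n : ℤ) : ‖pp L (-n)‖ = ‖pp L n‖ := by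
  rw [h.pp_neg, Complex.norm_conj]

theorem SI.norm_pk (h : SI L) (k : ℤ) : ‖pk L k‖ = ‖pk L 0‖ := by
  have e : eb k = sh k (eb 0) := by rw [sh_eb, zero_add]
  rw [pk, e, h.proj, (sh k).norm_map]
  rfl

theorem pp_zero : pp L 0 = ((‖pk L 0‖ ^ 2 : ℝ) : ℂ) := by
  have e := inner_pk_mem 0 (pk_mem L 0)
  rw [inner_self_eq_norm_sq_to_K] at e
  rw [pp, ← e]
  simp

theorem SI.pk_ne (h : SI L) (hL : ∃ x ∈ L, x ≠ 0) : pk L 0 ≠ 0 := by
  intro e
  obtain ⟨x, hx, hx0⟩ := hL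
  refine hx0 (lp.ext (funext fun k => ?_))
  have h1 : pk L k = 0 := norm_eq_zero.1 (by rw [h.norm_pk, e, norm_zero])
  rw [← inner_pk_mem k hx, h1, inner_zero_left]
  rfl

theorem hasSum_inner (x y : L2 ℤ) : HasSum (fun k => conj (x k) * y k) ⟪x, y⟫_ℂ := by
  have h := lp.hasSum_inner (𝕜 := ℂ) x y
  simpa [mul_comm] using h

end

theorem sum_le {z u : ℤ → ℂ} {τ : ℤ → ℤ} {g : ℤ → ℝ}
    (hi : ∀ j l, u j ≠ 0 → u l ≠ 0 → τ j = τ l → j = l) (hg : Summable g) (h0 : ∀ i, 0 ≤ g i)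
    (h1 : ∀ j, u j = 0 → z j = 0) (h2 : ∀ j, u j ≠ 0 → ‖z j‖ ^ 2 ≤ g (τ j)) (s : Finset ℤ) :
    ∑ j ∈ s, ‖z j‖ ^ 2 ≤ ∑' i, g i := by
  classical
  rw [← Finset.sum_filter_of_ne (p := fun j => u j ≠ 0) fun j _ hj e => hj (by simp [h1 j e])]
  refine (Finset.sum_le_sum fun j hj => h2 j (Finset.mem_filter.1 hj).2).trans ?_
  rw [← Finset.sum_image (f := g) fun j hj l hl e =>
    hi j l (Finset.mem_filter.1 hj).2 (Finset.mem_filter.1 hl).2 e]
  exact hg.sum_le_tsum _ fun i _ => h0 i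

theorem sum_le' {u : ℤ → ℂ} {τ : ℤ → ℤ} {M : ℝ}
    (hi : ∀ j l, u j ≠ 0 → u l ≠ 0 → τ j = τ l → j = l) (hM : ∀ j, ‖u j‖ ≤ M) (y : L2 ℤ)
    (s : Finset ℤ) : ∑ j ∈ s, ‖u j * y (τ j)‖ ^ 2 ≤ M ^ 2 * ‖y‖ ^ 2 := by
  have h := sum_le (z := fun j => u j * y (τ j)) (g := fun i => M ^ 2 * ‖y i‖ ^ 2) hi
    ((hasSum_sq y).summable.mul_left _) (fun i => by positivity) (fun j e => by simp [e])
    (fun j _ => by
      rw [norm_mul, mul_pow]
      exact mul_le_mul_of_nonneg_right (pow_le_pow_left₀ (norm_nonneg _) (hM j) 2)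
        (by positivity)) s
  rwa [((hasSum_sq y).mul_left _).tsum_eq] at h

theorem weak_lim {ι : Type} {F : Filter ι} {z : ι → L2 ℤ} {z0 : L2 ℤ} {B : ℝ}
    (hB : ∀ n, ‖z n‖ ≤ B) (h : ∀ j, Tendsto (fun n => z n j) F (𝓝 (z0 j))) (x : L2 ℤ) :
    Tendsto (fun n => ⟪x, z n⟫_ℂ) F (𝓝 ⟪x, z0⟫_ℂ) := by
  rw [Metric.tendsto_nhds]
  intro δ hδ
  set C := |B| + ‖z0‖ + 1 with hC
  have hC0 : 0 < C := by positivity
  obtain ⟨s, hs⟩ := (Metric.tendsto_nhds.1 (hasSum_eb x) (δ / 2 / C) (by positivity)).exists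
  set x' := ∑ k ∈ s, x k • eb k with hx'
  have e : ∀ v : L2 ℤ, ⟪x', v⟫_ℂ = ∑ k ∈ s, conj (x k) * v k := fun v => by
    rw [hx', sum_inner]
    exact Finset.sum_congr rfl fun k _ => by rw [inner_smul_left, inner_eb]
  have h1 : Tendsto (fun n => ⟪x', z n⟫_ℂ) F (𝓝 ⟪x', z0⟫_ℂ) := by
    simp only [e]
    exact tendsto_finsetSum _ fun k _ => (h k).const_mul _
  filter_upwards [Metric.tendsto_nhds.1 h1 (δ / 2) (by positivity)] with n hn
  rw [dist_eq_norm, ← inner_sub_right] at hn ⊢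
  have h2 : ⟪x, z n - z0⟫_ℂ = ⟪x', z n - z0⟫_ℂ - ⟪x' - x, z n - z0⟫_ℂ := by
    rw [inner_sub_left]
    ring
  have h3 := norm_inner_le_norm (𝕜 := ℂ) (x' - x) (z n - z0)
  have h4 : ‖z n - z0‖ ≤ C := by
    have := norm_sub_le (z n) z0
    have := hB n
    have := le_abs_self B
    linarith
  rw [dist_eq_norm] at hs
  have h5 : ‖x' - x‖ * ‖z n - z0‖ ≤ δ / 2 / C * C :=
    mul_le_mul hs.le h4 (norm_nonneg _) (by positivity)
  rw [div_mul_cancel₀ _ hC0.ne'] at h5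
  rw [h2]
  have h6 := norm_sub_le ⟪x', z n - z0⟫_ℂ ⟪x' - x, z n - z0⟫_ℂ
  linarith

/-- The weighted composition map with weights on the multiples of `d` preserves `L`. -/
structure Adm (L : Submodule ℂ (L2 ℤ)) (d : ℤ) (M : ℝ) (τ : ℤ → ℤ) (u : ℤ → ℂ) : Prop where
  inj : ∀ j l, u j ≠ 0 → u l ≠ 0 → τ j = τ l → j = l
  bd : ∀ j, ‖u j‖ ≤ M
  cl : ∀ j, u j ≠ 0 → d ∣ j
  pres : ∀ y ∈ L, ∃ z ∈ L, ∀ j, z j = u j * y (τ j)

variable {L : Submodule ℂ (L2 ℤ)} {d : ℤ} {M : ℝ}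

theorem Adm.shift {τ : ℤ → ℤ} {u : ℤ → ℂ} (h : Adm L d M τ u) (hL : SI L) {a : ℤ} (ha : d ∣ a)
    (b : ℤ) : Adm L d M (fun k => τ (k + a) - b) fun k => u (k + a) where
  inj j l h1 h2 e := add_right_cancel (h.inj _ _ h1 h2 (sub_left_injective e))
  bd j := h.bd _
  cl j hj := (dvd_add_left ha).1 (h.cl _ hj)
  pres y hy := by
    obtain ⟨z, hz, e⟩ := h.pres _ (hL b y hy)
    exact ⟨_, hL (-a) z hz, fun j => by rw [sh_apply, sub_neg_eq_add, e, sh_apply]⟩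

theorem Adm.norm_le {τ : ℤ → ℤ} {u : ℤ → ℂ} (h : Adm L d M τ u) {y z : L2 ℤ}
    (e : ∀ j, z j = u j * y (τ j)) : ‖z‖ ≤ M * ‖y‖ := by
  have hM : 0 ≤ M := (norm_nonneg _).trans (h.bd 0)
  refine (sq_le_sq₀ (norm_nonneg _) (by positivity)).1 ?_
  rw [mul_pow]
  refine hasSum_le_of_sum_le (hasSum_sq z) fun s => ?_
  simp only [e]
  exact sum_le' h.inj h.bd y s

theorem adm_lim [L.HasOrthogonalProjection] {ι : Type} (F : Ultrafilter ι) {τ : ι → ℤ → ℤ}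
    {u : ι → ℤ → ℂ} (h : ∀ n, Adm L d M (τ n) (u n)) : ∃ τ0 u0, Adm L d M τ0 u0 ∧
      (∀ j i, (∀ᶠ n in F, τ n j = i) → τ0 j = i ∧ Tendsto (fun n => u n j) F (𝓝 (u0 j))) ∧
      ∀ j, u0 j ≠ 0 → ∀ᶠ n in F, τ n j = τ0 j := by
  classical
  have hc : ∀ j, ∃ v : ℂ, ‖v‖ ≤ M ∧ Tendsto (fun n => u n j) F (𝓝 v) := fun j => by
    obtain ⟨v, hv, hl⟩ := (isCompact_closedBall (0 : ℂ) M).ultrafilter_le_nhds
      (F.map fun n => u n j) (by
        rw [le_principal_iff]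
        exact mem_map.2 (Eventually.of_forall fun n => mem_closedBall_zero_iff.2 ((h n).bd j)))
    exact ⟨v, mem_closedBall_zero_iff.1 hv, hl⟩
  choose v hv hl using hc
  have hM : 0 ≤ M := (norm_nonneg _).trans (hv 0)
  set τ0 : ℤ → ℤ := fun j => if e : ∃ i, ∀ᶠ n in F, τ n j = i then e.choose else 0 with hτ0
  set u0 : ℤ → ℂ := fun j => if ∃ i, ∀ᶠ n in F, τ n j = i then v j else 0 with hu0
  have a1 : ∀ j, (∃ i, ∀ᶠ n in F, τ n j = i) → (∀ᶠ n in F, τ n j = τ0 j) ∧ u0 j = v j :=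
    fun j e => ⟨by simp only [hτ0, dif_pos e]; exact e.choose_spec, if_pos e⟩
  have a2 : ∀ j, u0 j ≠ 0 → ∃ i, ∀ᶠ n in F, τ n j = i := fun j hj => by
    by_contra e
    exact hj (if_neg e)
  have a3 : ∀ j, u0 j ≠ 0 → ∀ᶠ n in F, u n j ≠ 0 := fun j hj =>
    (hl j).eventually_ne ((a1 j (a2 j hj)).2 ▸ hj)
  have hinj : ∀ j l, u0 j ≠ 0 → u0 l ≠ 0 → τ0 j = τ0 l → j = l := fun j l h1 h2 e => by
    obtain ⟨n, ⟨b1, b2⟩, b3, b4⟩ := (((a1 j (a2 j h1)).1.and (a1 l (a2 l h2)).1).and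
      ((a3 j h1).and (a3 l h2))).exists
    exact (h n).inj j l b3 b4 (by rw [b1, b2, e])
  have hbd : ∀ j, ‖u0 j‖ ≤ M := fun j => by
    simp only [hu0]
    split_ifs
    exacts [hv j, by simpa using hM]
  refine ⟨τ0, u0, ⟨hinj, hbd, fun j hj => ?_, fun y hy => ?_⟩, fun j i e => ?_,
    fun j hj => (a1 j (a2 j hj)).1⟩
  · obtain ⟨n, hn⟩ := (a3 j hj).exists
    exact (h n).cl j hn
  · choose z hz e using fun n => (h n).pres y hy
    let z0 : L2 ℤ := ⟨fun j => u0 j * y (τ0 j),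
      memL2 (summable_of_sum_le (fun _ => by positivity) (sum_le' hinj hbd y))⟩
    refine ⟨z0, ?_, fun _ => rfl⟩
    have hp : ∀ j, Tendsto (fun n => z n j) F (𝓝 (z0 j)) := fun j => by
      simp only [e]
      change Tendsto _ _ (𝓝 (u0 j * y (τ0 j)))
      by_cases hj : ∃ i, ∀ᶠ n in F, τ n j = i
      · rw [(a1 j hj).2]
        refine ((hl j).mul_const _).congr' ?_
        filter_upwards [(a1 j hj).1] with n hn
        rw [hn]
      · have b1 : Tendsto (fun n => τ n j) F cofinite := by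
          refine le_cofinite_iff_eventually_ne.2 fun i => ?_
          exact Ultrafilter.eventually_not.2 fun b => hj ⟨i, b⟩
        have b2 : Tendsto (fun i => y i) cofinite (𝓝 0) := by
          have b3 := (hasSum_sq y).summable.tendsto_cofinite_zero.sqrt
          simp only [Real.sqrt_sq (norm_nonneg _), Real.sqrt_zero] at b3
          exact tendsto_zero_iff_norm_tendsto_zero.2 b3
        have b4 := (hl j).mul (b2.comp b1)
        rw [mul_zero] at b4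
        rw [show u0 j = 0 from if_neg hj, zero_mul]
        exact b4
    rw [← L.orthogonal_orthogonal, Submodule.mem_orthogonal]
    intro x hx
    have b5 := weak_lim (fun n => (h n).norm_le (e n)) hp x
    have b6 : ∀ n, ⟪x, z n⟫_ℂ = 0 := fun n =>
      Submodule.inner_left_of_mem_orthogonal (hz n) hx
    simp only [b6] at b5
    exact tendsto_nhds_unique b5 tendsto_const_nhds
  · have b := a1 j ⟨i, e⟩
    obtain ⟨n, b1, b2⟩ := (b.1.and e).exists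
    exact ⟨b1.symm.trans b2, b.2 ▸ hl j⟩

end Pool.Agent.P.MP_909498_an.Wt
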