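import Pool.Agent.P.MP_909498_an.Wt.A

/-!
The maximum principle: a weight of maximal modulus forces an affine index map.
-/

open scoped InnerProductSpace ComplexConjugate
open Filter Topology

namespace Pool.Agent.P.MP_909498_an.Wt

variable {L : Submodule ℂ (L2 ℤ)} [L.HasOrthogonalProjection] {d : ℤ} {M : ℝ} {τ : ℤ → ℤ}
  {u : ℤ → ℂ}

theorem Adm.exact (h : Adm L d M τ u) (hL : SI L) {j : ℤ} (hj : ‖u j‖ = M) :
    (∀ l, u l * pp L (τ l - τ j) = u j * pp L (l - j)) ∧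
      (0 < M → ∀ l, pp L (l - j) ≠ 0 → ‖u l‖ = M) := by
  obtain ⟨z, hz, e⟩ := h.pres _ (pk_mem L (τ j))
  have hM : 0 ≤ M := hj ▸ norm_nonneg _
  have h1 := h.norm_le e
  rw [hL.norm_pk] at h1
  have h2 : ‖z‖ ^ 2 ≤ (M * ‖pk L 0‖) ^ 2 := pow_le_pow_left₀ (norm_nonneg _) h1 2
  have h3 : ⟪u j • pk L j, z⟫_ℂ = (((M * ‖pk L 0‖) ^ 2 : ℝ) : ℂ) := by
    rw [inner_smul_left, inner_pk_mem j hz, e, hL.pk_apply, sub_self, pp_zero, ← mul_assoc,
      Complex.conj_mul', hj]
    push_cast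
    ring
  have h4 : ‖u j • pk L j‖ = M * ‖pk L 0‖ := by rw [norm_smul, hL.norm_pk, hj]
  have h5 := norm_sub_sq (𝕜 := ℂ) (u j • pk L j) z
  rw [h3, h4, RCLike.re_to_complex, Complex.ofReal_re] at h5
  have h6 : u j • pk L j = z := by
    refine sub_eq_zero.1 (norm_eq_zero.1 (pow_eq_zero_iff two_ne_zero |>.1 ?_))
    exact le_antisymm (by linarith) (by positivity)
  have h7 : ∀ l, u l * pp L (τ l - τ j) = u j * pp L (l - j) := fun l => by
    rw [← hL.pk_apply, ← e, ← h6, ← hL.pk_apply]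
    rfl
  refine ⟨h7, fun hM0 l hl => le_antisymm (h.bd l) ?_⟩
  have huj : u j ≠ 0 := norm_pos_iff.1 (hj ▸ hM0)
  have h8 : u l * pp L (τ l - τ j) ≠ 0 := by
    rw [h7]
    exact mul_ne_zero huj hl
  set y := pk L (τ j) with hy
  have hb : ∀ k, ‖z k‖ ^ 2 ≤ M ^ 2 * ‖y (τ k)‖ ^ 2 := fun k => by
    rw [e, norm_mul, mul_pow]
    exact mul_le_mul_of_nonneg_right (pow_le_pow_left₀ (norm_nonneg _) (h.bd k) 2)
      (by positivity)
  set δ := M ^ 2 * ‖y (τ l)‖ ^ 2 - ‖z l‖ ^ 2 with hδ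
  have hs := ((hasSum_sq y).mul_left (M ^ 2)).sub (hasSum_ite_eq (τ l) δ)
  have h9 := hasSum_le_of_sum_le (hasSum_sq z) (sum_le (z := fun k => z k) h.inj hs.summable
    (fun i => by
      split_ifs with hi
      · rw [hi, hδ, sub_sub_cancel]
        positivity
      · rw [sub_zero]
        positivity) (fun k hk => by rw [e, hk, zero_mul]) fun k hk => by
      split_ifs with hi
      · rw [hi, hδ, sub_sub_cancel, h.inj k l hk (left_ne_zero_of_mul h8) hi]
      · rw [sub_zero]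
        exact hb k)
  rw [hs.tsum_eq, ← h6, h4, hy, hL.norm_pk (τ j), hδ, e, norm_mul, mul_pow, mul_pow] at h9
  have h10 : 0 < ‖y (τ l)‖ ^ 2 := by
    rw [hy, hL.pk_apply]
    exact pow_pos (norm_pos_iff.2 (right_ne_zero_of_mul h8)) 2
  have h11 : M ^ 2 ≤ ‖u l‖ ^ 2 := le_of_mul_le_mul_right (by linarith) h10
  exact (sq_le_sq₀ hM (norm_nonneg _)).1 h11

/-- The standing assumptions. -/
structure St (L : Submodule ℂ (L2 ℤ)) [L.HasOrthogonalProjection] (d : ℤ) : Prop where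
  si : SI L
  ne : ∃ x ∈ L, x ≠ 0
  ne' : ∃ x ∈ Lᗮ, x ≠ 0
  pos : 0 < d
  gen : AddSubgroup.closure {n | n ≠ 0 ∧ 0 < ‖pp L n‖} = AddSubgroup.zmultiples d

theorem St.dvd (S : St L d) {n : ℤ} (hn : pp L n ≠ 0) : d ∣ n := by
  rcases eq_or_ne n 0 with rfl | h0
  · exact dvd_zero _
  · exact Int.mem_zmultiples_iff.1 (S.gen ▸ AddSubgroup.subset_closure ⟨h0, norm_pos_iff.2 hn⟩)

theorem St.ind (S : St L d) {P : ℤ → Prop} (h0 : P 0)
    (hs : ∀ j s, d ∣ j → pp L s ≠ 0 → P j → P (j + s)) (j : ℤ) (hj : d ∣ j) : P j := by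
  have key : ∀ w ∈ AddSubgroup.closure {n | n ≠ 0 ∧ 0 < ‖pp L n‖},
      ∀ j, d ∣ j → P j → P (j + w) := by
    intro w hw
    induction hw using AddSubgroup.closure_induction'' with
    | mem n hn => exact fun j hj => hs j n hj (norm_pos_iff.1 hn.2)
    | neg_mem n hn =>
      exact fun j hj => hs j (-n) hj (norm_pos_iff.1 (by rw [S.si.norm_pp_neg]; exact hn.2))
    | zero => intro j _ h; rwa [add_zero]
    | add w w' hw _ ih ih' =>
      intro j hj h
      rw [← add_assoc]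
      exact ih' _ (dvd_add hj (Int.mem_zmultiples_iff.1 (S.gen ▸ hw))) (ih j hj h)
  have := key j (S.gen ▸ Int.mem_zmultiples_iff.2 hj) 0 (dvd_zero _) h0
  rwa [zero_add] at this

/-- The kernel is invariant under the sign `ε` twisted by the character `χ`. -/
structure Sym (L : Submodule ℂ (L2 ℤ)) [L.HasOrthogonalProjection] (d ε : ℤ) (χ : ℤ → ℂ) :
    Prop where
  sgn : ε = 1 ∨ ε = -1
  nrm : ∀ j, d ∣ j → ‖χ j‖ = 1
  mul : ∀ j l, d ∣ j → d ∣ l → χ (j + l) = χ j * χ l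
  ker : ∀ l, χ l * pp L (ε * l) = pp L l

theorem Adm.affine (h : Adm L d M τ u) (S : St L d) (hM : 0 < M) (h0 : ‖u 0‖ = M)
    (hτ : τ 0 = 0) : ∃ ε χ, Sym L d ε χ ∧ ∀ j, d ∣ j → τ j = ε * j ∧ u j ≠ 0 := by
  have hn : ∀ j, d ∣ j → ‖u j‖ = M := S.ind h0 fun j s _ hs hj =>
    (h.exact S.si hj).2 hM _ (by rwa [add_sub_cancel_left])
  have hu : ∀ j, d ∣ j → u j ≠ 0 := fun j hj => norm_pos_iff.1 (hn j hj ▸ hM)
  have hE := fun j hj => (h.exact S.si (hn j hj)).1
  have hN : ∀ j l, d ∣ j → d ∣ l → ‖pp L (τ l - τ j)‖ = ‖pp L (l - j)‖ := fun j l hj hl => by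
    have e := congrArg norm (hE j hj l)
    rw [norm_mul, norm_mul, hn j hj, hn l hl] at e
    exact mul_left_cancel₀ hM.ne' e
  have hD : ∀ j, d ∣ j → d ∣ τ j := S.ind (by rw [hτ]; exact dvd_zero d) fun j s hj hs ih => by
    have e := hN j (j + s) hj (dvd_add hj (S.dvd hs))
    rw [add_sub_cancel_left] at e
    have := S.dvd (norm_pos_iff.1 (e ▸ norm_pos_iff.2 hs))
    exact (dvd_sub_left ih).1 this
  set σ : ℤ → ℤ := fun k => τ (d * (k / d)) + k % d with hσ
  have hk : ∀ k, d * (k / d) = k - k % d := fun k => by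
    have := Int.mul_ediv_add_emod k d
    omega
  have hσ1 : ∀ j k, d ∣ σ k - σ j ↔ d ∣ k - j := fun j k => by
    have e : σ k - σ j = (τ (d * (k / d)) - τ (d * (j / d)) - d * (k / d) + d * (j / d)) +
        (k - j) := by
      simp only [hσ]
      rw [hk k, hk j]
      ring
    rw [e]
    exact dvd_add_right (dvd_add (dvd_sub (dvd_sub (hD _ (dvd_mul_right _ _))
      (hD _ (dvd_mul_right _ _))) (dvd_mul_right _ _)) (dvd_mul_right _ _))
  have hσ2 : ∀ j k, d ∣ k - j → k % d = j % d := fun j k e =>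
    Int.emod_eq_emod_iff_emod_sub_eq_zero.2 (Int.emod_eq_zero_of_dvd e)
  have hinj : Function.Injective σ := fun j k e => by
    have e1 := hσ2 j k ((hσ1 j k).1 (by rw [e, sub_self]; exact dvd_zero _))
    simp only [hσ] at e
    rw [e1] at e
    have e2 := h.inj _ _ (hu _ (dvd_mul_right _ _)) (hu _ (dvd_mul_right _ _)) (add_right_cancel e)
    rw [hk, hk] at e2
    omega
  have hfin : ∀ δ : ℝ, 0 < δ → {n | δ ≤ ‖pp L n‖}.Finite := fun δ hδ => by
    refine (finite_level L 0 hδ).subset fun n hn => ?_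
    change δ ≤ ‖pk L n 0‖
    rw [S.si.pk_apply, zero_sub, S.si.norm_pp_neg]
    exact hn
  have haff := P.MP_909498_an.affine (a := fun n => ‖pp L n‖) hfin S.si.norm_pp_neg hinj
    (fun j k => by
      by_cases e : d ∣ k - j
      · have e1 := hσ2 j k e
        have e2 := hN _ _ (dvd_mul_right d (j / d)) (dvd_mul_right d (k / d))
        simp only [hσ]
        rw [e1, add_sub_add_right_eq_sub, e2, hk, hk, e1, sub_sub_sub_cancel_right]
      · have e1 : pp L (k - j) = 0 := by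
          by_contra e2
          exact e (S.dvd e2)
        have e2 : pp L (σ k - σ j) = 0 := by
          by_contra e2
          exact e ((hσ1 j k).1 (S.dvd e2))
        simp only [e1, e2]) S.pos S.gen 0
  have hσ3 : ∀ t, σ (d * t) = τ (d * t) := fun t => by
    simp only [hσ]
    rw [Int.mul_ediv_cancel_left _ S.pos.ne', Int.mul_emod_right, add_zero]
  have hσ0 : σ 0 = 0 := by simp [hσ, hτ]
  simp only [zero_add, hσ3, hσ0] at haff
  obtain ⟨ε, hε, hτε⟩ : ∃ ε : ℤ, (ε = 1 ∨ ε = -1) ∧ ∀ j, d ∣ j → τ j = ε * j := by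
    rcases haff with e | e
    · exact ⟨1, Or.inl rfl, by rintro _ ⟨t, rfl⟩; rw [e, one_mul]⟩
    · exact ⟨-1, Or.inr rfl, by rintro _ ⟨t, rfl⟩; rw [e]; ring⟩
  have hpε : ∀ s, ‖pp L (ε * s)‖ = ‖pp L s‖ := fun s => by
    rcases hε with rfl | rfl
    · rw [one_mul]
    · rw [neg_one_mul, S.si.norm_pp_neg]
  have hE' : ∀ j s, d ∣ j → d ∣ s → u (j + s) * pp L (ε * s) = u j * pp L s := fun j s hj hs => by
    have e := hE j hj (j + s)
    rwa [hτε j hj, hτε _ (dvd_add hj hs), mul_add, add_sub_cancel_left, add_sub_cancel_left] at e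
  have hmul : ∀ w, d ∣ w → ∀ j, d ∣ j → u (j + w) * u 0 = u j * u w :=
    S.ind (fun j _ => by rw [add_zero]) fun w s hw hs ih j hj => by
      have e0 : pp L (ε * s) ≠ 0 := norm_pos_iff.1 (hpε s ▸ norm_pos_iff.2 hs)
      have e1 := hE' (j + w) s (dvd_add hj hw) (S.dvd hs)
      have e2 := hE' w s hw (S.dvd hs)
      have e3 := ih j hj
      refine mul_right_cancel₀ e0 ?_
      rw [← add_assoc]
      linear_combination u 0 * e1 + pp L s * e3 - u j * e2
  have hu0 := hu 0 (dvd_zero _)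
  refine ⟨ε, fun l => u l / u 0, ⟨hε, fun j hj => ?_, fun j l hj hl => ?_, fun l => ?_⟩,
    fun j hj => ⟨hτε j hj, hu j hj⟩⟩
  · rw [norm_div, hn j hj, h0, div_self hM.ne']
  · have e := hmul l hl j hj
    field_simp
    linear_combination e
  · by_cases hl : d ∣ l
    · have e := hE' 0 l (dvd_zero _) hl
      rw [zero_add] at e
      field_simp
      linear_combination e
    · have e1 : pp L l = 0 := by
        by_contra e2
        exact hl (S.dvd e2)
      have e2 : pp L (ε * l) = 0 := norm_eq_zero.1 (by rw [hpε, e1, norm_zero])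
      rw [e1, e2, mul_zero]

end Pool.Agent.P.MP_909498_an.Wt
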