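import Pool.Agent.P.MP_909498_an.Wt.B

/-!
Sequences supported on a half line, modulations, and propagation of an affine index map from a
half line to all integers.
-/

open scoped InnerProductSpace ComplexConjugate
open Filter Topology

namespace Pool.Agent.P.MP_909498_an.Wt

theorem exists_ne {x : L2 ℤ} (hx : x ≠ 0) : ∃ i, x i ≠ 0 := by
  by_contra h
  push Not at h
  exact hx (lp.ext (funext h))

theorem side_pos {N : Submodule ℂ (L2 ℤ)} (hN : SI N) (hne : ∃ x ∈ N, x ≠ 0) {D : L2 ℤ}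
    (hD : D ∈ Nᗮ) (h0 : ∀ j, j < 0 → D j = 0) : D = 0 := by
  obtain ⟨x, hx, hx0⟩ := hne
  obtain ⟨i, hi⟩ := exists_ne hx0
  set Y := (N ⊔ Submodule.span ℂ (eb '' {j : ℤ | j < 0}))ᗮ with hY
  have hm : ∀ y, y ∈ Y ↔ y ∈ Nᗮ ∧ ∀ j, j < 0 → y j = 0 := fun y => by
    rw [hY, ← Submodule.inf_orthogonal, Submodule.mem_inf]
    refine and_congr_right fun _ => ⟨fun h j hj => ?_, fun h => ?_⟩
    · rw [← inner_eb]
      exact Submodule.inner_right_of_mem_orthogonal
        (Submodule.subset_span (Set.mem_image_of_mem eb (a := {j : ℤ | j < 0}) hj)) h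
    · rw [Submodule.mem_orthogonal']
      intro v hv
      have : Submodule.span ℂ (eb '' {j : ℤ | j < 0}) ≤ (innerSL ℂ y).ker := by
        rw [Submodule.span_le]
        rintro _ ⟨j, hj, rfl⟩
        change ⟪y, eb j⟫_ℂ = 0
        rw [inner_eq_zero_symm, inner_eb, h j hj]
      exact this hv
  have hx1 : 0 < ‖x‖ := norm_pos_iff.2 hx0
  have hw := wold (N := Y) (S := sh) sh_apply sh_sh (fun y hy => (hm _).2 ⟨hN.orth 1 y ((hm y).1 hy).1,
    fun j hj => by rw [sh_apply, ((hm y).1 hy).2 _ (by omega)]⟩)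
    (c := ‖x i‖ / ‖x‖) (div_pos (norm_pos_iff.2 hi) hx1) fun k => by
      have h1 := norm_inner_le_norm (𝕜 := ℂ) (eb k - Y.starProjection (eb k)) (sh (k - i) x)
      rw [inner_sub_left, inner_eb, sh_apply, sub_sub_cancel, (sh _).norm_map,
        Submodule.inner_left_of_mem_orthogonal (hN _ _ hx)
          ((hm _).1 (Y.starProjection_apply_mem _)).1, sub_zero] at h1
      exact (div_le_iff₀ hx1).2 h1
  have hn : ∀ n : ℕ, sh (-n) D ∈ Y := fun n => by
    induction n with
    | zero => simpa [sh_zero] using (hm D).2 ⟨hD, h0⟩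
    | succ n ih =>
      have := hw _ ih
      rw [sh_sh] at this
      rwa [Nat.cast_succ, neg_add, add_comm]
  refine lp.ext (funext fun j => ?_)
  rcases lt_or_ge j 0 with hj | hj
  · exact h0 j hj
  · have := ((hm _).1 (hn (j + 1).toNat)).2 (-1) (by omega)
    rw [sh_apply] at this
    rw [show j = -1 - -((j + 1).toNat : ℤ) by omega]
    exact this

theorem side {N : Submodule ℂ (L2 ℤ)} (hN : SI N) (hne : ∃ x ∈ N, x ≠ 0) {D : L2 ℤ}
    (hD : D ∈ Nᗮ) {σ : ℤ} (hσ : σ = 1 ∨ σ = -1) (h0 : ∀ j, σ * j < 0 → D j = 0) : D = 0 := by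
  rcases hσ with rfl | rfl
  · exact side_pos hN hne hD fun j hj => h0 j (by omega)
  obtain ⟨R, hR⟩ := exists_isW (ι := ℤ) neg_injective (u := fun _ => 1) fun _ => norm_one
  have h1 : ∀ x k, R x k = x (-k) := fun x k => by simpa using hR.apply x (-k)
  have h2 : ∀ x, R (R x) = x := fun x => lp.ext (funext fun k => by rw [h1, h1, neg_neg])
  have h3 := side_pos (N := N.comap R.toLinearMap) (D := R D) (fun t x hx => by
      have e : R (sh t x) = sh (-t) (R x) := lp.ext (funext fun k => by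
        rw [h1, sh_apply, sh_apply, h1, show -k - t = -(k - -t) by ring])
      change R (sh t x) ∈ N
      rw [e]
      exact hN _ _ hx)
    (by
      obtain ⟨x, hx, hx0⟩ := hne
      refine ⟨R x, ?_, fun e => hx0 (by rw [← h2 x, e, map_zero])⟩
      change R (R x) ∈ N
      rwa [h2])
    ((Submodule.mem_orthogonal _ _).2 fun x hx => by
      rw [← R.inner_map_map, h2]
      exact Submodule.inner_right_of_mem_orthogonal hx hD)
    fun j hj => by rw [h1, h0 _ (by omega)]
  rw [← h2 D, h3, map_zero]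

/-- The characters of the integers. -/
noncomputable def ch (η : ℝ) (n : ℤ) : ℂ := Complex.exp ((η * n : ℝ) * Complex.I)

theorem norm_ch (η : ℝ) (n : ℤ) : ‖ch η n‖ = 1 := Complex.norm_exp_ofReal_mul_I _

theorem ch_mul {η η' η'' : ℝ} {a b c : ℤ} (h : η * a + η' * b = η'' * c) :
    ch η a * ch η' b = ch η'' c := by
  rw [ch, ch, ch, ← Complex.exp_add, ← add_mul, ← Complex.ofReal_add, h]

theorem ch_zero (η : ℝ) : ch η 0 = 1 := by simp [ch]

theorem ch_ne {m : ℤ} (hm : m ≠ 0) : ∀ᶠ η in 𝓝[≠] (0 : ℝ), ch η m ≠ 1 := by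
  have h1 : ∀ᶠ η : ℝ in 𝓝 (0 : ℝ), |η * (m : ℝ)| < 2 * Real.pi := by
    have c : Continuous fun η : ℝ => |η * (m : ℝ)| := by fun_prop
    exact (c.tendsto 0).eventually (gt_mem_nhds (by simp [Real.pi_pos]))
  filter_upwards [h1.filter_mono nhdsWithin_le_nhds, self_mem_nhdsWithin] with η h2 h3 e
  obtain ⟨n, hn⟩ := Complex.exp_eq_one_iff.1 e
  have h4 : η * m = n * (2 * Real.pi) := by
    have := mul_right_cancel₀ Complex.I_ne_zero (hn.trans (mul_assoc _ _ _).symm)
    exact_mod_cast this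
  rw [h4, abs_mul, abs_of_pos Real.two_pi_pos, mul_lt_iff_lt_one_left Real.two_pi_pos] at h2
  have h5 : n = 0 := Int.abs_lt_one_iff.1 (by exact_mod_cast h2)
  rw [h5, Int.cast_zero, zero_mul] at h4
  exact mul_ne_zero h3 (Int.cast_ne_zero.2 hm) h4

/-- The modulations. -/
noncomputable def mo (η : ℝ) : L2 ℤ →ₗᵢ[ℂ] L2 ℤ :=
  (exists_isW Function.injective_id (norm_ch η)).choose

theorem mo_apply (η : ℝ) (x : L2 ℤ) (k : ℤ) : mo η x k = ch η k * x k :=
  (exists_isW Function.injective_id (norm_ch η)).choose_spec.apply x k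

theorem mo_mo {η η' : ℝ} (h : η + η' = 0) (x : L2 ℤ) : mo η (mo η' x) = x :=
  lp.ext (funext fun k => by
    rw [mo_apply, mo_apply, ← mul_assoc, ch_mul (η'' := 0) (c := 0) (by rw [← add_mul, h]; simp),
      ch_zero, one_mul])

theorem SI.mo {L : Submodule ℂ (L2 ℤ)} (h : SI L) (η : ℝ) :
    SI (L ⊓ L.comap (mo η).toLinearMap) := fun t x hx => by
  refine ⟨h t x hx.1, ?_⟩
  have e : Wt.mo η (sh t x) = ch η t • sh t (Wt.mo η x) := lp.ext (funext fun k => by
    change _ = ch η t * sh t (Wt.mo η x) k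
    rw [mo_apply, sh_apply, sh_apply, mo_apply, ← mul_assoc,
      ch_mul (η'' := η) (c := k) (by push_cast; ring)])
  change Wt.mo η (sh t x) ∈ L
  rw [e]
  exact L.smul_mem _ (h t _ hx.2)

variable {L : Submodule ℂ (L2 ℤ)} [L.HasOrthogonalProjection] {d : ℤ} {M : ℝ} {τ : ℤ → ℤ}
  {u : ℤ → ℂ}

theorem SI.inter (h : SI L) (hne : ∃ x ∈ L, x ≠ 0) :
    ∀ᶠ η in 𝓝 (0 : ℝ), ∃ y ∈ L ⊓ L.comap (Wt.mo η).toLinearMap, y ≠ 0 := by
  have h1 : ∀ η j, HasSum (fun k => conj (pp L (k - j)) * (ch η k * pp L k))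
      (L.starProjection (Wt.mo η (pk L 0)) j) := fun η j => by
    have := hasSum_inner (pk L j) (Wt.mo η (pk L 0))
    simpa only [inner_pk, h.pk_apply, mo_apply, sub_zero] using this
  have h2 : Continuous fun η => ∑' k, conj (pp L (k - 0)) * (ch (-η) k * pp L k) := by
    refine continuous_tsum (u := fun k => ‖pp L k‖ ^ 2) (fun k => ?_)
      (hasSum_sq (pk L 0)).summable fun k η => ?_
    · unfold ch
      fun_prop
    · rw [norm_mul, norm_mul, norm_ch, sub_zero, Complex.norm_conj, one_mul, sq]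
  simp only [fun η => (h1 η 0).tsum_eq] at h2
  have h3 : L.starProjection (Wt.mo (-0) (pk L 0)) 0 ≠ 0 := by
    have e : Wt.mo (-0) (pk L 0) = pk L 0 := lp.ext (funext fun k => by simp [mo_apply, ch])
    rw [e, Submodule.starProjection_eq_self_iff.2 (pk_mem L 0)]
    change pp L 0 ≠ 0
    rw [pp_zero]
    exact_mod_cast pow_ne_zero 2 (norm_ne_zero_iff.2 (h.pk_ne hne))
  filter_upwards [(h2.tendsto 0).eventually_ne h3] with η hη
  refine ⟨_, ⟨L.starProjection_apply_mem (Wt.mo (-η) (pk L 0)), ?_⟩, fun e => hη (by rw [e]; rfl)⟩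
  have e : Wt.mo η (L.starProjection (Wt.mo (-η) (pk L 0))) =
      L.starProjection (Wt.mo η (pk L 0)) := lp.ext (funext fun j => by
    rw [mo_apply]
    refine HasSum.unique ?_ (h1 η j)
    have h4 := ((Equiv.subLeft j).hasSum_iff.2 (h1 (-η) j)).mul_left (ch η j)
    refine (funext fun k => ?_ : _ = fun k => conj (pp L (k - j)) * (ch η k * pp L k)) ▸ h4
    simp only [Function.comp, Equiv.subLeft_apply]
    rw [sub_sub_cancel_left, h.pp_neg, Complex.conj_conj, ← neg_sub k j, h.pp_neg,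
      ← ch_mul (η := η) (a := j) (η' := -η) (b := -(k - j)) (η'' := η) (c := k)
        (by push_cast; ring)]
    ring)
  change Wt.mo η _ ∈ L
  rw [e]
  exact L.starProjection_apply_mem _

theorem Adm.half (h : Adm L d M τ u) (S : St L d) {σ ε : ℤ} (hσ : σ = 1 ∨ σ = -1)
    (hh : ∀ j, σ * j < 0 → u j ≠ 0 → τ j = ε * j) (j : ℤ) (hj : u j ≠ 0) : τ j = ε * j := by
  by_contra hm
  have t1 : Tendsto (fun η : ℝ => ε * η) (𝓝 0) (𝓝 0) := by
    simpa using (continuous_id.const_mul (ε : ℝ)).tendsto 0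
  obtain ⟨η, ⟨⟨y, hy, hy0⟩, hx⟩, hη⟩ := ((((S.si.inter S.ne).and
    (t1.eventually (S.si.orth.inter S.ne'))).filter_mono nhdsWithin_le_nhds).and
      (ch_ne (sub_ne_zero.2 hm))).exists
  obtain ⟨i, hi⟩ := exists_ne hy0
  have hy' := S.si.mo η (τ j - i) y hy
  obtain ⟨z, hz, e⟩ := h.pres _ hy'.1
  obtain ⟨z', hz', e'⟩ := h.pres _ hy'.2
  have hD : ∀ k, (z - mo (-(ε * η)) z') k =
      u k * (1 - ch η (τ k - ε * k)) * sh (τ j - i) y (τ k) := fun k => by
    change z k - mo (-(ε * η)) z' k = _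
    rw [mo_apply, e, e']
    change _ - _ * (u k * mo η _ (τ k)) = _
    rw [mo_apply, ← ch_mul (η := -(ε * η)) (a := k) (η' := η) (b := τ k) (η'' := η)
      (c := τ k - ε * k) (by push_cast; ring)]
    ring
  have h0 := side (S.si.orth.mo (ε * η)) hx (D := z - mo (-(ε * η)) z')
    ((Submodule.mem_orthogonal _ _).2 fun x hx => by
      rw [inner_sub_right, Submodule.inner_left_of_mem_orthogonal hz hx.1,
        ← (mo (ε * η)).inner_map_map, mo_mo (add_neg_cancel _), zero_sub, neg_eq_zero]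
      exact Submodule.inner_left_of_mem_orthogonal hz' hx.2) hσ fun k hk => by
      rw [hD]
      by_cases hu : u k = 0
      · rw [hu, zero_mul, zero_mul]
      · rw [hh k hk hu, sub_self, ch_zero, sub_self, mul_zero, zero_mul]
  have h1 := hD j
  rw [h0, sh_apply, sub_sub_cancel] at h1
  exact mul_ne_zero (mul_ne_zero hj (sub_ne_zero.2 hη.symm)) hi h1.symm

end Pool.Agent.P.MP_909498_an.Wt
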