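import Pool.Agent.P.MP_909498_an.Wt.C

/-!
Bounded harmonic functions on the integers, and the classification of the weighted composition maps
with weights bounded below.
-/

open scoped InnerProductSpace ComplexConjugate
open Filter Topology

namespace Pool.Agent.P.MP_909498_an.Wt

theorem cd_real {μ v : ℤ → ℝ} {B : ℝ} (h0 : ∀ m, 0 ≤ μ m) (h1 : HasSum μ 1)
    (hB : ∀ j, |v j| ≤ B) (hv : ∀ j, HasSum (fun m => μ m * v (j + m)) (v j)) {s : ℤ}
    (hs : 0 < μ s) (j : ℤ) : v (j + s) ≤ v j := by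
  set g : ℤ → ℝ := fun j => v (j + s) - v j with hg
  have hb : ∀ a b, v a - v b ≤ 2 * B := fun a b => by
    have := abs_le.1 (hB a)
    have := abs_le.1 (hB b)
    linarith
  have hbd : BddAbove (Set.range g) := ⟨2 * B, by rintro _ ⟨a, rfl⟩; exact hb _ _⟩
  set T := ⨆ j, g j with hT
  have hle : ∀ a, g a ≤ T := le_ciSup hbd
  by_contra hc
  have hT0 : 0 < T := lt_of_lt_of_le (by simp only [hg]; linarith) (hle j)
  have step : ∀ a, μ s * (T - g (a + s)) ≤ T - g a := fun a => by
    have e := (h1.mul_right T).sub ((hv (a + s)).sub (hv a))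
    rw [one_mul] at e
    have e' : HasSum (fun m => μ m * (T - g (a + m))) (T - g a) := by
      refine (funext fun m => ?_ : _ = fun m => μ m * (T - g (a + m))) ▸ e
      simp only [hg]
      rw [add_right_comm a s m]
      ring
    exact le_hasSum e' s fun m _ => mul_nonneg (h0 m) (sub_nonneg.2 (hle _))
  have hs1 : μ s ≤ 1 := le_hasSum h1 s fun m _ => h0 m
  obtain ⟨K, hK⟩ := exists_nat_gt (2 * B / (T / 2))
  obtain ⟨a, ha⟩ := exists_lt_of_lt_ciSup
    (show T - μ s ^ K * (T / 2) < T from sub_lt_self _ (by positivity))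
  have it : ∀ k : ℕ, μ s ^ k * (T - g (a + k * s)) ≤ T - g a := fun k => by
    induction k with
    | zero => simp
    | succ k ih =>
      have := mul_le_mul_of_nonneg_left (step (a + k * s)) (pow_nonneg hs.le k)
      rw [Nat.cast_succ, add_mul, one_mul, ← add_assoc, pow_succ, mul_assoc]
      exact this.trans ih
  have tel : ∀ k : ℕ, k ≤ K → k * (T / 2) ≤ v (a + k * s) - v a := fun k => by
    induction k with
    | zero => simp
    | succ k ih =>
      intro hk
      have b1 := ih (by omega)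
      have b2 := it k
      have b3 : μ s ^ K ≤ μ s ^ k := pow_le_pow_of_le_one hs.le hs1 (by omega)
      have b4 : μ s ^ k * (T - g (a + k * s)) ≤ μ s ^ k * (T / 2) := by
        have := mul_le_mul_of_nonneg_right b3 (show 0 ≤ T / 2 by positivity)
        linarith
      have b5 := le_of_mul_le_mul_left b4 (pow_pos hs k)
      simp only [hg] at b5
      rw [Nat.cast_succ, Nat.cast_succ, add_mul (k : ℤ), one_mul, ← add_assoc]
      linarith
  have b6 := (tel K le_rfl).trans (hb _ _)
  rw [div_lt_iff₀ (by positivity)] at hK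
  linarith

theorem cd {μ : ℤ → ℝ} {v : ℤ → ℂ} {B : ℝ} (h0 : ∀ m, 0 ≤ μ m) (h1 : HasSum μ 1)
    (hB : ∀ j, ‖v j‖ ≤ B) (hv : ∀ j, HasSum (fun m => (μ m : ℂ) * v (j + m)) (v j)) {s : ℤ}
    (hs : 0 < μ s) (j : ℤ) : v (j + s) = v j := by
  have key : ∀ c : ℂ, ‖c‖ = 1 → (c * v (j + s)).re ≤ (c * v j).re := fun c hc =>
    cd_real (v := fun j => (c * v j).re) (B := B) h0 h1 (fun j => by
      refine (Complex.abs_re_le_norm _).trans ?_
      rw [norm_mul, hc, one_mul]
      exact hB j) (fun j => by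
      have := Complex.hasSum_re ((hv j).mul_left c)
      simpa only [mul_left_comm c, Complex.re_ofReal_mul] using this) hs j
  have a1 := key 1 norm_one
  have a2 := key (-1) (by simp)
  have a3 := key Complex.I Complex.norm_I
  have a4 := key (-Complex.I) (by simp)
  simp only [one_mul, neg_mul, Complex.neg_re, Complex.I_mul_re] at a1 a2 a3 a4
  exact Complex.ext (by linarith) (by linarith)

variable {L : Submodule ℂ (L2 ℤ)} [L.HasOrthogonalProjection] {d : ℤ} {M : ℝ} {τ : ℤ → ℤ}
  {u : ℤ → ℂ}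

theorem St.pp_zero_ne (S : St L d) : pp L 0 ≠ 0 := by
  rw [pp_zero]
  exact_mod_cast pow_ne_zero 2 (norm_ne_zero_iff.2 (S.si.pk_ne S.ne))

theorem Sym.zero {ε : ℤ} {χ : ℤ → ℂ} (Y : Sym L d ε χ) (S : St L d) : χ 0 = 1 := by
  have e := Y.ker 0
  rw [mul_zero] at e
  exact mul_left_eq_self₀.1 e |>.resolve_right S.pp_zero_ne

theorem Adm.pure (h : Adm L d M τ u) (S : St L d) {ε : ℤ} {χ : ℤ → ℂ} (Y : Sym L d ε χ)
    (hh : ∀ j, u j ≠ 0 → τ j = ε * j) (j : ℤ) (hj : d ∣ j) : u j = u 0 * χ j := by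
  set c := ‖pk L 0‖ ^ 2 with hc
  have hc0 : 0 < c := pow_pos (norm_pos_iff.2 (S.si.pk_ne S.ne)) 2
  have hc1 : (c : ℂ) ≠ 0 := Complex.ofReal_ne_zero.2 hc0.ne'
  have h1 : HasSum (fun m => ‖pp L m‖ ^ 2 / c) 1 := by
    have := (hasSum_sq (pk L 0)).div_const c
    rwa [div_self hc0.ne'] at this
  have key := fun s (hs : pp L s ≠ 0) => cd (μ := fun m => ‖pp L m‖ ^ 2 / c)
    (v := fun k => u k * conj (χ k)) (B := M) (fun m => by positivity) h1 (fun k => by
      by_cases hk : u k = 0
      · simpa [hk] using (norm_nonneg _).trans (h.bd 0)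
      · rw [norm_mul, Complex.norm_conj, Y.nrm k (h.cl k hk), mul_one]
        exact h.bd k) (fun j => by
      by_cases hj : d ∣ j
      · obtain ⟨z, hz, e⟩ := h.pres _ (pk_mem L (ε * j))
        have b1 := (Equiv.addLeft j).hasSum_iff.2 (hasSum_inner (pk L j) z)
        rw [inner_pk_mem j hz] at b1
        have b2 : ∀ k, z k = u k * pp L (ε * (k - j)) := fun k => by
          rw [e, S.si.pk_apply]
          by_cases hk : u k = 0
          · rw [hk, zero_mul, zero_mul]
          · rw [hh k hk, mul_sub]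
        have b3 := (b1.mul_left (conj (χ j))).div_const c
        rw [b2 j, sub_self, mul_zero, pp_zero, ← hc,
          show conj (χ j) * (u j * (c : ℂ)) / c = u j * conj (χ j) by field_simp] at b3
        refine (funext fun m => ?_ :
          _ = fun m => ((‖pp L m‖ ^ 2 / c : ℝ) : ℂ) * (u (j + m) * conj (χ (j + m)))) ▸ b3
        simp only [Function.comp, Equiv.coe_addLeft]
        rw [b2, S.si.pk_apply, add_sub_cancel_left]
        by_cases hm : pp L m = 0
        · simp [hm]
        · have b4 := Y.ker m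
          have b5 := conj_mul_self (Y.nrm m (S.dvd hm))
          rw [Y.mul j m hj (S.dvd hm), map_mul]
          push_cast
          rw [← Complex.conj_mul']
          field_simp
          linear_combination conj (pp L m) * u (j + m) * conj (χ j) *
            (conj (χ m) * b4 - pp L (ε * m) * b5)
      · have b1 : u j = 0 := by
          by_contra e
          exact hj (h.cl j e)
        refine (funext fun m => ?_ :
          _ = fun m => ((‖pp L m‖ ^ 2 / c : ℝ) : ℂ) * (u (j + m) * conj (χ (j + m)))) ▸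
            (by simp [b1, hasSum_zero] : HasSum (fun _ : ℤ => (0 : ℂ)) (u j * conj (χ j)))
        by_cases hm : pp L m = 0
        · simp [hm]
        · have b2 : u (j + m) = 0 := by
            by_contra e
            exact hj ((dvd_add_left (S.dvd hm)).1 (h.cl _ e))
          simp [b2]) (s := s) (by have := norm_pos_iff.2 hs; positivity)
  have a1 := S.ind (P := fun k => u k * conj (χ k) = u 0 * conj (χ 0)) rfl
    (fun k s _ hs ih => (key s hs k).trans ih) j hj
  have a2 := conj_mul_self (Y.nrm j hj)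
  simp only [Y.zero S, map_one, mul_one] at a1
  linear_combination χ j * a1 - u j * a2

theorem Adm.stretch (h : Adm L d M τ u) (S : St L d) {δ : ℝ} (hδ : 0 < δ)
    (hu : ∀ j, d ∣ j → δ ≤ ‖u j‖) : ∃ ε χ, Sym L d ε χ ∧
      ∀ n : ℕ, ∃ a, d ∣ a ∧ ∀ t : ℕ, t ≤ n → τ (d * t + a) - τ a = ε * (d * t) := by
  have hbd : BddAbove (Set.range fun j => ‖u j‖) := ⟨M, by rintro _ ⟨a, rfl⟩; exact h.bd a⟩
  set T := ⨆ j, ‖u j‖ with hT
  have hle : ∀ a, ‖u a‖ ≤ T := le_ciSup hbd
  have hT0 : 0 < T := hδ.trans_le ((hu 0 (dvd_zero _)).trans (hle 0))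
  have h' : Adm L d T τ u := ⟨h.inj, hle, h.cl, h.pres⟩
  have hn : ∀ n : ℕ, ∃ a, T - T * (1 / ((n : ℝ) + 1)) < ‖u a‖ := fun n =>
    exists_lt_of_lt_ciSup (show _ < T from sub_lt_self _ (by positivity))
  choose a ha using hn
  have hda : ∀ n, d ∣ a n := fun n => h.cl _ (norm_pos_iff.1 (lt_of_le_of_lt (by
    have : 1 / ((n : ℝ) + 1) ≤ 1 := by
      rw [div_le_one (by positivity)]
      exact le_add_of_nonneg_left n.cast_nonneg
    nlinarith) (ha n)))
  obtain ⟨τ0, u0, h0, h1, h2⟩ := adm_lim (hyperfilter ℕ)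
    fun n => h'.shift S.si (hda n) (τ (a n))
  obtain ⟨b1, b2⟩ := h1 0 0 (Eventually.of_forall fun n => by rw [zero_add, sub_self])
  have b3 : Tendsto (fun n : ℕ => T - T * (1 / ((n : ℝ) + 1))) (hyperfilter ℕ) (𝓝 T) := by
    have := (tendsto_one_div_add_atTop_nhds_zero_nat (𝕜 := ℝ)).const_mul T |>.const_sub T
    rw [mul_zero, sub_zero] at this
    exact this.mono_left (Nat.cofinite_eq_atTop ▸ hyperfilter_le_cofinite)
  have b4 : ‖u0 0‖ = T := le_antisymm (h0.bd 0)
    (le_of_tendsto_of_tendsto' b3 b2.norm fun n => by rw [zero_add]; exact (ha n).le)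
  obtain ⟨ε, χ, Y, hY⟩ := h0.affine S hT0 b4 b1
  refine ⟨ε, χ, Y, fun n => ?_⟩
  have b5 : ∀ᶠ k in hyperfilter ℕ, ∀ t ∈ Finset.range (n + 1),
      τ (d * t + a k) - τ (a k) = ε * (d * t) :=
    (eventually_all_finset _).2 fun t _ => by
      have := hY _ (dvd_mul_right d t)
      simpa only [this.1] using h2 _ this.2
  obtain ⟨k, hk⟩ := b5.exists
  exact ⟨a k, hda k, fun t ht => hk t (Finset.mem_range.2 (by omega))⟩

theorem Adm.core (h : Adm L d M τ u) (S : St L d) {δ : ℝ} (hδ : 0 < δ)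
    (hu : ∀ j, d ∣ j → δ ≤ ‖u j‖) : ∃ ε χ, Sym L d ε χ ∧
      ∀ j, d ∣ j → τ j = τ 0 + ε * j ∧ u j = u 0 * χ j := by
  classical
  obtain ⟨ε, χ, Y, hY⟩ := h.stretch S hδ hu
  have hu' : ∀ j, d ∣ j → u j ≠ 0 := fun j hj => norm_pos_iff.1 (hδ.trans_le (hu j hj))
  have hd := S.pos
  have hA : ∃ a, d ∣ a ∧ ∀ t : ℕ, τ (d * t + a) - τ a = ε * (d * t) := by
    by_contra hc
    push Not at hc
    have hr : ∀ n : ℕ, ∃ r b, d ∣ r ∧ (∀ t : ℕ, t < n → τ (-(d * (t + 1)) + r) - b =
        ε * -(d * (t + 1))) ∧ τ (0 + r) - b ≠ 0 := fun n => by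
      obtain ⟨a, ha, h1⟩ := hY n
      have h2 := Nat.find_spec (hc a ha)
      have h3 := fun m => Nat.find_min (hc a ha) (m := m)
      set s := Nat.find (hc a ha)
      have h4 : n < s := by
        by_contra h4
        exact h2 (h1 s (by omega))
      refine ⟨d * s + a, τ a + ε * (d * s), dvd_add (dvd_mul_right _ _) ha, fun t ht => ?_, ?_⟩
      · have h5 := not_not.1 (h3 (s - (t + 1)) (by omega))
        rw [Nat.cast_sub (by omega)] at h5
        push_cast at h5
        rw [show -(d * (t + 1)) + (d * s + a) = d * (s - (t + 1)) + a by ring]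
        linear_combination h5
      · rw [zero_add]
        intro e
        exact h2 (by linear_combination e)
    choose r b hr h1 h2 using hr
    obtain ⟨τ0, u0, h0, h3, h4⟩ := adm_lim (hyperfilter ℕ) fun n => h.shift S.si (hr n) (b n)
    have h5 := fun t : ℕ => h3 (-(d * (t + 1))) (ε * -(d * (t + 1))) (by
      have : ∀ᶠ n in hyperfilter ℕ, t < n :=
        (eventually_gt_atTop t).filter_mono (Nat.cofinite_eq_atTop ▸ hyperfilter_le_cofinite)
      exact this.mono fun n hn => h1 n t hn)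
    have h6 := h0.half S (Or.inl rfl) (ε := ε) fun j hj hj' => by
      obtain ⟨m, rfl⟩ := h0.cl j hj'
      have hm : m < 0 := by nlinarith
      have e : d * m = -(d * (((-m - 1).toNat : ℤ) + 1)) := by
        rw [Int.toNat_of_nonneg (by omega)]
        ring
      rw [e, (h5 _).1]
    have hdv : d ∣ -(d * (((0 : ℕ) : ℤ) + 1)) := (dvd_mul_right _ _).neg_right
    have h7 : δ ≤ ‖u0 (-(d * (((0 : ℕ) : ℤ) + 1)))‖ :=
      ge_of_tendsto' (h5 0).2.norm fun n => hu _ (dvd_add hdv (hr n))
    rw [h0.pure S Y h6 _ hdv] at h7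
    have h8 : u0 0 ≠ 0 := left_ne_zero_of_mul (norm_pos_iff.1 (hδ.trans_le h7))
    obtain ⟨n, hn⟩ := (h4 0 h8).exists
    exact h2 n (by rw [hn, h6 0 h8, mul_zero])
  obtain ⟨a, ha, hA⟩ := hA
  have h1 := (h.shift S.si ha (τ a)).half S (Or.inr rfl) (ε := ε) fun j hj hj' => by
    obtain ⟨m, rfl⟩ := (h.shift S.si ha (τ a)).cl j hj'
    have hm : 0 ≤ m := by nlinarith
    have := hA m.toNat
    rwa [Int.toNat_of_nonneg hm] at this
  have h2 : ∀ j, d ∣ j → τ j = τ a + ε * (j - a) := fun j hj => by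
    have := h1 (j - a) (by simpa using hu' j hj)
    simp only [sub_add_cancel] at this
    linear_combination this
  have h3 : ∀ j, d ∣ j → τ j = τ 0 + ε * j := fun j hj => by
    linear_combination h2 j hj - h2 0 (dvd_zero _)
  refine ⟨ε, χ, Y, fun j hj => ⟨h3 j hj, ?_⟩⟩
  have h4 := (h.shift S.si (dvd_zero d) (τ 0)).pure S Y (fun j hj => by
    simp only [add_zero] at hj ⊢
    linear_combination h3 j (h.cl j hj)) j hj
  simpa only [add_zero] using h4

end Pool.Agent.P.MP_909498_an.Wt
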