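import Pool.Agent.P.MP_909498_an.Defs

/-!
Weighted operator representations of families of vectors in a complex Hilbert space.
-/

namespace Pool.Agent.P.MP_909498_an.Wt

variable {H : Type} [NormedAddCommGroup H] [InnerProductSpace ℂ H] {ι : Type}

/-- A bounded linear operator on the span of `f` sends `f k` to `w k • f (τ k)` for every `k`. -/
def WRep (f : ι → H) (τ : ι → ι) (w : ι → ℂ) : Prop :=
  ∃ V : Submodule.span ℂ (Set.range f) →L[ℂ] H,
    ∀ k, V ⟨f k, Submodule.subset_span ⟨k, rfl⟩⟩ = w k • f (τ k)

end Pool.Agent.P.MP_909498_an.Wt
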