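import Pool.Agent.P.MP_909498_an.Wt.D
import Pool.Agent.P.MP_909498_an.Wt.Defs

/-!
The weighted injective index maps represented by a bounded operator, for a stationary overcomplete
frame sequence.
-/

open scoped InnerProductSpace ComplexConjugate
open Filter Topology

namespace Pool.Agent.P.MP_909498_an.Wt

variable {H : Type} [NormedAddCommGroup H] [InnerProductSpace ℂ H]

theorem exists_comp {τ : ℤ → ℤ} {w : ℤ → ℂ} {M : ℝ} (hτ : Function.Injective τ)
    (hM : ∀ j, ‖w j‖ ≤ M) : ∃ C : L2 ℤ →L[ℂ] L2 ℤ, (∀ y j, C y j = conj (w j) * y (τ j)) ∧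
      ∀ k, ContinuousLinearMap.adjoint C (eb k) = w k • eb (τ k) := by
  have hs := sum_le' (u := fun j => conj (w j)) (τ := τ) (M := M) (fun j l _ _ e => hτ e)
    fun j => by rw [Complex.norm_conj]; exact hM j
  let C0 : L2 ℤ →ₗ[ℂ] L2 ℤ :=
    { toFun := fun y => ⟨fun j => conj (w j) * y (τ j),
        memL2 (summable_of_sum_le (fun _ => by positivity) (hs y))⟩
      map_add' := fun y y' => lp.ext (funext fun j => mul_add _ _ _)
      map_smul' := fun c y => lp.ext (funext fun j => mul_left_comm _ _ _) }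
  have hM0 : 0 ≤ M := (norm_nonneg _).trans (hM 0)
  refine ⟨C0.mkContinuous M fun y => ?_, fun _ _ => rfl, fun k => ext_inner_right ℂ fun y => ?_⟩
  · refine (sq_le_sq₀ (norm_nonneg _) (by positivity)).1 ?_
    rw [mul_pow]
    exact hasSum_le_of_sum_le (hasSum_sq (C0 y)) (hs y)
  · rw [ContinuousLinearMap.adjoint_inner_left, inner_eb, inner_smul_left, inner_eb]
    rfl

theorem pres_w {f : ℤ → H} {U : L2 ℤ →L[ℂ] H} (hU : IsSyn f U) {W : L2 ℤ →L[ℂ] L2 ℤ}
    {τ : ℤ → ℤ} {w : ℤ → ℂ} (hW : ∀ k, W (eb k) = w k • eb (τ k)) (h : WRep f τ w) :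
    ∀ x ∈ U.ker, W x ∈ U.ker := by
  obtain ⟨V, hV⟩ := h
  intro x hx
  have h0 : U x = 0 := hx
  have h1 : HasSum (fun k => x k • w k • f (τ k)) (U (W x)) := by
    have h := hasSum_map (U.comp W) x
    have e : ∀ k, (U.comp W) (eb k) = w k • f (τ k) := fun k => by
      change U (W (eb k)) = _
      rw [hW, map_smul, hU]
    simp only [e] at h
    exact h
  have h2 := le_of_tendsto_of_tendsto' h1.norm ((hU.hasSum x).norm.const_mul ‖V‖) fun s => by
    have h1 := V.le_opNorm (∑ k ∈ s, x k • ⟨f k, Submodule.subset_span ⟨k, rfl⟩⟩)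
    rw [_root_.map_sum] at h1
    simp only [map_smul, hV] at h1
    simpa using h1
  rw [h0, norm_zero, mul_zero] at h2
  exact norm_le_zero_iff.1 h2

theorem rep_w {f : ℤ → H} {U : L2 ℤ →L[ℂ] H} (hU : IsSyn f U) {A : ℝ} (hA : 0 < A)
    (hl : ∀ x, A * ‖x - U.ker.starProjection x‖ ^ 2 ≤ ‖U x‖ ^ 2) {W : L2 ℤ →L[ℂ] L2 ℤ}
    {τ : ℤ → ℤ} {w : ℤ → ℂ} (hW : ∀ k, W (eb k) = w k • eb (τ k))
    (hN : ∀ x ∈ U.ker, W x ∈ U.ker) : WRep f τ w := by
  have hb : ∀ x, ‖U (W x)‖ ≤ ‖U.comp W‖ / √A * ‖U x‖ := fun x => by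
    have h1 : U (W (U.ker.starProjection x)) = 0 := hN _ (U.ker.starProjection_apply_mem x)
    have h2 : U (W x) = U (W (x - U.ker.starProjection x)) := by
      rw [map_sub, map_sub, h1, sub_zero]
    have h3 : √A * ‖x - U.ker.starProjection x‖ ≤ ‖U x‖ := by
      refine (sq_le_sq₀ (by positivity) (norm_nonneg _)).1 ?_
      rw [mul_pow, Real.sq_sqrt hA.le]
      exact hl x
    have h4 : ‖U (W (x - U.ker.starProjection x))‖ ≤ _ :=
      (U.comp W).le_opNorm (x - U.ker.starProjection x)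
    rw [← h2] at h4
    have hs : 0 < √A := Real.sqrt_pos.2 hA
    calc ‖U (W x)‖ ≤ ‖U.comp W‖ / √A * (√A * ‖x - U.ker.starProjection x‖) := by
          rw [← mul_assoc, div_mul_cancel₀ _ hs.ne']
          exact h4
      _ ≤ _ := mul_le_mul_of_nonneg_left h3 (by positivity)
  obtain ⟨R, hR⟩ := (U : L2 ℤ →ₗ[ℂ] H).rangeRestrict.exists_rightInverse_of_surjective
    (LinearMap.range_rangeRestrict _)
  have hle : Submodule.span ℂ (Set.range f) ≤ (U : L2 ℤ →ₗ[ℂ] H).range :=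
    Submodule.span_le.2 (by
      rintro _ ⟨k, rfl⟩
      exact ⟨eb k, hU k⟩)
  have hRU : ∀ y, U (R y) = y.1 := fun y => congrArg Subtype.val (LinearMap.congr_fun hR y)
  let V0 : Submodule.span ℂ (Set.range f) →ₗ[ℂ] H :=
    (U : L2 ℤ →ₗ[ℂ] H) ∘ₗ (W : L2 ℤ →ₗ[ℂ] L2 ℤ) ∘ₗ R ∘ₗ Submodule.inclusion hle
  have hV0 : ∀ y, ‖V0 y‖ ≤ ‖U.comp W‖ / √A * ‖y‖ := fun y => by
    have := hb (R (Submodule.inclusion hle y))
    rw [hRU] at this
    exact this
  refine ⟨V0.mkContinuous _ hV0, fun k => ?_⟩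
  set y := R (Submodule.inclusion hle ⟨f k, Submodule.subset_span ⟨k, rfl⟩⟩) with hy
  have h1 : y - eb k ∈ U.ker := by
    change U (y - eb k) = 0
    rw [map_sub, hy, hRU, hU]
    exact sub_self _
  have h2 : U (W (y - eb k)) = 0 := hN _ h1
  rw [map_sub, map_sub, hW, map_smul, hU, sub_eq_zero] at h2
  exact h2

variable {L : Submodule ℂ (L2 ℤ)} [L.HasOrthogonalProjection] {d : ℤ}

theorem SI.exists_st (h : SI L) (h1 : ∃ x ∈ L, x ≠ 0) (h2 : ∃ x ∈ Lᗮ, x ≠ 0) :
    ∃ d : ℕ, St L d := by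
  obtain ⟨a, ha⟩ := Int.subgroup_cyclic (AddSubgroup.closure {n | n ≠ 0 ∧ 0 < ‖pp L n‖})
  have hG : AddSubgroup.closure {n | n ≠ 0 ∧ 0 < ‖pp L n‖} =
      AddSubgroup.zmultiples (a.natAbs : ℤ) := by
    rw [ha, ← AddSubgroup.zmultiples_eq_closure, Int.zmultiples_natAbs]
  refine ⟨a.natAbs, h, h1, h2, Int.natCast_pos.2 (Nat.pos_of_ne_zero fun e => ?_), hG⟩
  have h3 := diag_trivial (N := L) (fun j k hjk => by
    change pk L k j = 0
    rw [h.pk_apply]
    by_contra hc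
    have : (a.natAbs : ℤ) ∣ j - k := Int.mem_zmultiples_iff.1
      (hG ▸ AddSubgroup.subset_closure ⟨sub_ne_zero.2 hjk, norm_pos_iff.2 hc⟩)
    rw [e, Nat.cast_zero, zero_dvd_iff] at this
    exact sub_ne_zero.2 hjk this) (fun j k => by
    rw [dd, dd, show eb j = sh (j - k) (eb k) by rw [sh_eb, add_sub_cancel], h.proj, ← map_sub,
      (sh _).norm_map]) h1
  obtain ⟨x, hx, hx0⟩ := h2
  obtain ⟨i, hi⟩ := exists_ne hx0
  exact hi (by rw [← inner_eb]; exact Submodule.inner_right_of_mem_orthogonal (h3 i) hx)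

theorem St.ind_mem (S : St L d) {z : L2 ℤ} (hz : z ∈ L) :
    ∃ z' ∈ L, ∀ j, z' j = if d ∣ j then z j else 0 := by
  obtain ⟨W, hW⟩ := exists_isW Function.injective_id
    (u := fun j : ℤ => if d ∣ j then 1 else -1) fun j => by split_ifs <;> simp
  have h1 := hW.pres (N := L) Function.surjective_id (fun j k => by
    change _ * pk L k j = _ * pk L k j
    rw [S.si.pk_apply]
    by_cases e : pp L (j - k) = 0
    · rw [e, mul_zero, mul_zero]
    · have := S.dvd e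
      simp only [(dvd_iff_dvd_of_dvd_sub this)]) z hz
  refine ⟨(1 / 2 : ℂ) • (z + W z), L.smul_mem _ (L.add_mem hz h1), fun j => ?_⟩
  change (1 / 2 : ℂ) * (z j + W z (id j)) = _
  rw [hW.apply]
  split_ifs <;> ring

theorem Sym.one {χ : ℤ → ℂ} (Y : Sym L d 1 χ) (S : St L d) : ∀ j, d ∣ j → χ j = 1 :=
  S.ind (Y.zero S) fun j s hj hs ih => by
    have e := Y.ker s
    rw [one_mul] at e
    rw [Y.mul j s hj (S.dvd hs), ih, (mul_left_eq_self₀.1 e).resolve_right hs, one_mul]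

theorem Sym.root {d : ℕ} {ε : ℤ} {χ : ℤ → ℂ} (Y : Sym L d ε χ) (S : St L d) :
    ∃ γ : ℂ, ‖γ‖ = 1 ∧ ∀ j, (d : ℤ) ∣ j → conj (χ j) = γ ^ j := by
  have hd : 0 < d := Int.natCast_pos.1 S.pos
  obtain ⟨γ, hγ⟩ := IsAlgClosed.exists_pow_nat_eq (conj (χ d)) hd
  have h1 : ‖γ‖ = 1 := by
    have e := congrArg norm hγ
    rw [norm_pow, Complex.norm_conj, Y.nrm _ dvd_rfl] at e
    exact (pow_eq_one_iff_of_nonneg (norm_nonneg _) hd.ne').1 e
  have h0 : γ ≠ 0 := norm_ne_zero_iff.1 (h1 ▸ one_ne_zero)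
  have h2 : ∀ t : ℤ, conj (χ (d * (t + 1))) = conj (χ (d * t)) * γ ^ (d : ℤ) := fun t => by
    rw [mul_add, mul_one, Y.mul _ _ (dvd_mul_right _ _) dvd_rfl, map_mul, zpow_natCast, hγ]
  refine ⟨γ, h1, ?_⟩
  rintro _ ⟨t, rfl⟩
  induction t using Int.induction_on with
  | zero => simp [Y.zero S]
  | succ t ih => rw [h2, ih, mul_add, mul_one, zpow_add₀ h0]
  | pred t ih =>
    have e := h2 (-t - 1)
    rw [sub_add_cancel, ih] at e
    refine mul_right_cancel₀ (zpow_ne_zero (d : ℤ) h0) ?_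
    rw [← e, ← zpow_add₀ h0]
    congr 1
    ring

theorem classify_w [CompleteSpace H] {f : ℤ → H}
    (hg : ∀ j k t, ⟪f (j + t), f (k + t)⟫_ℂ = ⟪f j, f k⟫_ℂ) (hf0 : f 0 ≠ 0)
    (hf : IsFrameSeq f) (hR : ¬IsRieszSeq f) :
    ∃ d : ℕ, 0 < d ∧ ∀ (τ : ℤ → ℤ) (w : ℤ → ℂ) (δ : ℝ), Function.Injective τ → 0 < δ →
      (∀ k, δ ≤ ‖w k‖) → (WRep f τ w ↔ ∀ k,
        (∀ t, τ (k + d * t) = τ k + d * t ∧ w (k + d * t) = w k) ∨
          ∃ γ : ℂ, ‖γ‖ = 1 ∧ WRep f (fun n => -n) (fun n => γ ^ n) ∧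
            ∀ t, τ (k + d * t) = τ k - d * t ∧ w (k + d * t) = w k * γ ^ (d * t : ℤ)) := by
  obtain ⟨U, A, hA, hU, hl⟩ := exists_syn hf
  have hN := hU.ker_ne hA hl hR
  have hsi : SI U.ker := fun t =>
    hU.pres_of_gram (exists_shifts.choose_spec.1 t) fun j k => by simpa using hg j k t
  obtain ⟨d, S⟩ := hsi.orth.exists_st (L := U.kerᗮ) (by
    by_contra hc
    push Not at hc
    have h1 : eb 0 ∈ U.kerᗮᗮ := (Submodule.mem_orthogonal _ _).2 fun x hx => by
      rw [hc x hx, inner_zero_left]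
    rw [Submodule.orthogonal_orthogonal] at h1
    exact hf0 ((hU 0).symm.trans h1)) (by rwa [Submodule.orthogonal_orthogonal])
  have fwd : ∀ (τ : ℤ → ℤ) (w : ℤ → ℂ) (M : ℝ), Function.Injective τ → (∀ k, ‖w k‖ ≤ M) →
      WRep f τ w → ∀ y ∈ U.kerᗮ, ∃ z ∈ U.kerᗮ, ∀ j, z j = conj (w j) * y (τ j) :=
    fun τ w M hτ hM h y hy => by
      obtain ⟨C, h1, h2⟩ := exists_comp hτ hM
      refine ⟨C y, (Submodule.mem_orthogonal _ _).2 fun x hx => ?_, h1 y⟩
      rw [← ContinuousLinearMap.adjoint_inner_left]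
      exact Submodule.inner_right_of_mem_orthogonal (pres_w hU h2 h x hx) hy
  have back : ∀ (τ : ℤ → ℤ) (w : ℤ → ℂ) (M : ℝ), Function.Bijective τ → (∀ k, ‖w k‖ ≤ M) →
      (∀ j k, conj (w j) * pp U.kerᗮ (τ j - τ k) = conj (w k) * pp U.kerᗮ (j - k)) →
      WRep f τ w := fun τ w M hτ hM h => by
    obtain ⟨C, h1, h2⟩ := exists_comp hτ.1 hM
    refine rep_w hU hA hl h2 fun x hx => ?_
    rw [← U.ker.orthogonal_orthogonal, Submodule.mem_orthogonal]
    intro y hy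
    have e := ext_eb (T := C.comp U.kerᗮ.starProjection) (T' := U.kerᗮ.starProjection.comp C)
      (fun i => by
        obtain ⟨k, rfl⟩ := hτ.2 i
        have e1 : C (eb (τ k)) = conj (w k) • eb k := lp.ext (funext fun j => by
          change _ = conj (w k) * eb k j
          rw [h1, eb_apply, eb_apply]
          by_cases e : j = k
          · rw [e, if_pos rfl, if_pos rfl]
          · rw [if_neg e, if_neg fun e' => e (hτ.1 e'), mul_zero, mul_zero])
        refine lp.ext (funext fun j => ?_)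
        change C (pk U.kerᗮ (τ k)) j = U.kerᗮ.starProjection (C (eb (τ k))) j
        rw [e1, map_smul, h1]
        change _ = conj (w k) * pk U.kerᗮ k j
        rw [S.si.pk_apply, S.si.pk_apply, h]) y
    change C (U.kerᗮ.starProjection y) = U.kerᗮ.starProjection (C y) at e
    rw [Submodule.starProjection_eq_self_iff.2 hy] at e
    rw [ContinuousLinearMap.adjoint_inner_right, e]
    exact Submodule.inner_left_of_mem_orthogonal hx (U.kerᗮ.starProjection_apply_mem _)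
  have hz : ∀ n, ¬(d : ℤ) ∣ n → pp U.kerᗮ n = 0 := fun n hn => by
    by_contra e
    exact hn (S.dvd e)
  have hd : 0 < d := Int.natCast_pos.1 S.pos
  refine ⟨d, hd, fun τ w δ hτ hδ hw => ⟨fun h k => ?_, fun h => ?_⟩⟩
  · have hn : ∀ k, ‖f k‖ = ‖f 0‖ := fun k => by
      have e := hg 0 0 k
      rw [zero_add] at e
      rw [norm_eq_sqrt_re_inner (𝕜 := ℂ), e, ← norm_eq_sqrt_re_inner (𝕜 := ℂ)]
    obtain ⟨M, hM⟩ : ∃ M, ∀ k, ‖w k‖ ≤ M := by
      obtain ⟨V, hV⟩ := h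
      refine ⟨‖V‖, fun k => ?_⟩
      have e := V.le_opNorm ⟨f k, Submodule.subset_span ⟨k, rfl⟩⟩
      rw [hV, norm_smul, hn] at e
      change _ ≤ _ * ‖f k‖ at e
      rw [hn k] at e
      exact le_of_mul_le_mul_right e (norm_pos_iff.2 hf0)
    have a1 : Adm U.kerᗮ d M (fun j => τ (j + k))
        fun j => if (d : ℤ) ∣ j then conj (w (j + k)) else 0 :=
      ⟨fun j l _ _ e => add_right_cancel (hτ e), fun j => by
        split_ifs
        · rw [Complex.norm_conj]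
          exact hM _
        · exact norm_zero.trans_le ((norm_nonneg _).trans (hM 0)), fun j hj => by
        by_contra e
        exact hj (if_neg e), fun y hy => by
        obtain ⟨z, hz, e⟩ := fwd τ w M hτ hM h y hy
        obtain ⟨z', hz', e'⟩ := S.ind_mem (S.si (-k) z hz)
        refine ⟨z', hz', fun j => ?_⟩
        rw [e', sh_apply, sub_neg_eq_add, e, ite_mul, zero_mul]⟩
    obtain ⟨ε, χ, Y, hY⟩ := a1.core S hδ fun j hj => by
      rw [if_pos hj, Complex.norm_conj]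
      exact hw _
    have a2 : ∀ t : ℤ, τ (k + d * t) = τ k + ε * (d * t) ∧
        w (k + d * t) = w k * conj (χ (d * t)) := fun t => by
      obtain ⟨b1, b2⟩ := hY _ (dvd_mul_right (d : ℤ) t)
      simp only [zero_add, dvd_mul_right, dvd_zero, if_true] at b1 b2
      rw [add_comm k]
      refine ⟨b1, ?_⟩
      simpa using congrArg conj b2
    rcases Y.sgn with rfl | rfl
    · refine Or.inl fun t => ?_
      simpa [Y.one S _ (dvd_mul_right (d : ℤ) t)] using a2 t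
    · obtain ⟨γ, hγ, h1⟩ := Y.root S
      have h0 : γ ≠ 0 := norm_ne_zero_iff.1 (hγ ▸ one_ne_zero)
      refine Or.inr ⟨γ, hγ, back _ _ 1 neg_involutive.bijective (fun n => by simp [hγ])
        fun j l => ?_, fun t => ⟨by rw [(a2 t).1]; ring, by
          rw [(a2 t).2, h1 _ (dvd_mul_right _ _)]⟩⟩
      by_cases e : (d : ℤ) ∣ j - l
      · have b1 := Y.ker (j - l)
        rw [← b1, show γ ^ j = γ ^ l * γ ^ (j - l) by rw [← zpow_add₀ h0, add_sub_cancel],
          ← h1 _ e, map_mul, Complex.conj_conj, mul_assoc, show -j - -l = -1 * (j - l) by ring]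
      · rw [hz _ e, hz _ fun e' => e (by rwa [neg_sub_neg, dvd_sub_comm] at e'), mul_zero,
          mul_zero]
  · have h' : ∀ x, (∀ t, τ (x + d * t) = τ x + d * t) ∨ ∀ t, τ (x + d * t) = τ x - d * t :=
      fun x => (h x).imp (fun e t => (e t).1) fun ⟨_, _, _, e⟩ t => (e t).1
    have hb : ∀ k, ‖w k‖ ≤ ∑ i ∈ Finset.Ico (0 : ℤ) d, ‖w i‖ := fun k => by
      have e : ‖w (k % d + d * (k / d))‖ = ‖w (k % d)‖ := by
        rcases h (k % d) with e | ⟨γ, hγ, _, e⟩
        · rw [(e _).2]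
        · rw [(e _).2, norm_mul, norm_zpow, hγ, one_zpow, mul_one]
      rw [Int.emod_add_mul_ediv] at e
      rw [e]
      exact Finset.single_le_sum (f := fun i => ‖w i‖) (fun i _ => norm_nonneg _)
        (Finset.mem_Ico.2 ⟨Int.emod_nonneg _ S.pos.ne', Int.emod_lt_of_pos _ S.pos⟩)
    refine back τ w _ ⟨hτ, surj_of_affine hτ hd h'⟩ hb fun j k => ?_
    by_cases hjk : (d : ℤ) ∣ j - k
    · obtain ⟨t, ht⟩ := hjk
      obtain rfl : j = k + d * t := by omega
      rcases h k with e | ⟨γ, hγ, h1, e⟩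
      · rw [(e t).1, (e t).2, add_sub_cancel_left, add_sub_cancel_left]
      · have hγ' : ∀ n : ℤ, ‖γ ^ n‖ ≤ 1 := fun n => by simp [hγ]
        have a1 : Adm U.kerᗮ 1 1 (fun n => -n) fun n => conj (γ ^ n) :=
          ⟨fun j l _ _ e => neg_injective e, fun n => by rw [Complex.norm_conj]; exact hγ' n,
            fun j _ => one_dvd j, fwd _ _ 1 neg_injective hγ' h1⟩
        have a2 := (a1.exact S.si (j := 0) (by simp)).1 (d * t)
        simp only [neg_zero, sub_zero, zpow_zero, map_one, one_mul] at a2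
        rw [(e t).1, (e t).2, add_sub_cancel_left, sub_sub_cancel_left, map_mul, mul_assoc, a2]
    · rw [hz _ hjk, hz _ fun e => hjk (dvd_of_affine hτ h' e), mul_zero, mul_zero]

end Pool.Agent.P.MP_909498_an.Wt
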